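import Mathlib

/-!
MP_f79b2b_co, Q1 (disproof).  For every `m` there are finite connected graphs `G`, `H` with
`gp⁻(G) ≥ m`, `gp⁻(H) ≥ m` and `gp⁻(G □ H) ≤ 6`.
-/

namespace Pool.Agent.Results.MP_f79b2b_co.ProductFails

open SimpleGraph

variable {V W : Type}

/-- `x`, `y`, `z` lie on a common shortest path of `G`. -/
def OnGeodesic (G : SimpleGraph V) (x y z : V) : Prop :=
  ∃ (u v : V) (p : G.Walk u v), p.length = G.dist u v ∧
    x ∈ p.support ∧ y ∈ p.support ∧ z ∈ p.support

/-- General position sets: no three (distinct) vertices lie on a common shortest path. -/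
def IsGP (G : SimpleGraph V) (S : Finset V) : Prop :=
  ∀ x ∈ S, ∀ y ∈ S, ∀ z ∈ S, x ≠ y → y ≠ z → x ≠ z → ¬ OnGeodesic G x y z

/-- The lower general position number: the minimum cardinality of a maximal general position
set. -/
noncomputable def gpLower (G : SimpleGraph V) : ℕ :=
  sInf {n | ∃ S : Finset V, Maximal (IsGP G) S ∧ S.card = n}

lemma dist_getVert {G : SimpleGraph V} {u v : V} (p : G.Walk u v) (hp : p.length = G.dist u v)
    {i j : ℕ} (hij : i ≤ j) (hj : j ≤ p.length) :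
    G.dist (p.getVert i) (p.getVert j) = j - i := by
  have h1 : ((p.drop i).take (j - i)).IsSubwalk p :=
    (Walk.isSubwalk_take _ _).trans (Walk.isSubwalk_drop _ _)
  have h2 := length_eq_dist_of_subwalk hp h1
  rw [Walk.take_length, Walk.drop_length, Walk.drop_getVert] at h2
  have h3 : i + (j - i) = j := by omega
  rw [h3] at h2
  rw [← h2]
  have : j - i ≤ p.length - i := by omega
  exact inf_eq_left.2 this

lemma additive_of_onGeodesic {G : SimpleGraph V} {x y z : V} (h : OnGeodesic G x y z) :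
    G.dist x z = G.dist x y + G.dist y z ∨ G.dist y z = G.dist y x + G.dist x z ∨
      G.dist x y = G.dist x z + G.dist z y := by
  obtain ⟨u, v, p, hp, hx, hy, hz⟩ := h
  rw [Walk.mem_support_iff_exists_getVert] at hx hy hz
  obtain ⟨i, rfl, hi⟩ := hx
  obtain ⟨j, rfl, hj⟩ := hy
  obtain ⟨k, rfl, hk⟩ := hz
  have D : ∀ {a b : ℕ}, a ≤ p.length → b ≤ p.length →
      G.dist (p.getVert a) (p.getVert b) = (b - a) + (a - b) := by
    intro a b ha hb
    rcases le_total a b with h | h
    · rw [dist_getVert p hp h hb]; omega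
    · rw [SimpleGraph.dist_comm, dist_getVert p hp h ha]; omega
  rw [D hi hk, D hi hj, D hj hk, D hj hi, D hk hj]
  omega

lemma onGeodesic_of_additive {G : SimpleGraph V} (hG : G.Connected) {x y z : V}
    (h : G.dist x z = G.dist x y + G.dist y z) : OnGeodesic G x y z := by
  obtain ⟨p, hp⟩ := hG.exists_walk_length_eq_dist x y
  obtain ⟨q, hq⟩ := hG.exists_walk_length_eq_dist y z
  refine ⟨x, z, p.append q, by rw [Walk.length_append]; omega, ?_, ?_, ?_⟩
  · exact Walk.start_mem_support _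
  · rw [Walk.mem_support_append_iff]; exact Or.inl (Walk.end_mem_support _)
  · exact Walk.end_mem_support _

lemma gp_iff {G : SimpleGraph V} (hG : G.Connected) (S : Finset V) :
    IsGP G S ↔ ∀ x ∈ S, ∀ y ∈ S, ∀ z ∈ S, x ≠ y → y ≠ z → x ≠ z →
      G.dist x z ≠ G.dist x y + G.dist y z := by
  constructor
  · intro h x hx y hy z hz h1 h2 h3 h4
    exact h x hx y hy z hz h1 h2 h3 (onGeodesic_of_additive hG h4)
  · intro h x hx y hy z hz h1 h2 h3 h4
    rcases additive_of_onGeodesic h4 with h5 | h5 | h5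
    · exact h x hx y hy z hz h1 h2 h3 h5
    · exact h y hy x hx z hz h1.symm h3 h2 h5
    · exact h x hx z hz y hy h3 h2.symm h1 h5

/-- In a connected graph of diameter at most two the general position sets are the sets
inducing a disjoint union of cliques. -/
lemma gp_iff_cluster {G : SimpleGraph V} (hG : G.Connected) (h2 : ∀ a b, G.dist a b ≤ 2)
    (S : Finset V) :
    IsGP G S ↔ ∀ x ∈ S, ∀ y ∈ S, ∀ z ∈ S, G.Adj x y → G.Adj y z → x ≠ z → G.Adj x z := by
  rw [gp_iff hG]
  constructor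
  · intro h x hx y hy z hz h3 h4 h5
    by_contra h6
    apply h x hx y hy z hz h3.ne h4.ne h5
    have e1 : G.dist x y = 1 := dist_eq_one_iff_adj.2 h3
    have e2 : G.dist y z = 1 := dist_eq_one_iff_adj.2 h4
    have e3 := hG.one_lt_dist_of_ne_of_not_adj h5 h6
    have e4 := h2 x z
    omega
  · intro h x hx y hy z hz h3 h4 h5 h6
    have e1 := hG.pos_dist_of_ne h3
    have e2 := hG.pos_dist_of_ne h4
    have e3 := h2 x z
    have f1 : G.dist x y = 1 := by omega
    have f2 : G.dist y z = 1 := by omega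
    have f3 := h x hx y hy z hz (dist_eq_one_iff_adj.1 f1) (dist_eq_one_iff_adj.1 f2) h5
    have f4 : G.dist x z = 1 := dist_eq_one_iff_adj.2 f3
    omega

/-! ### the graph `H` -/

/-- adjacency inside `Q = {0,..,5}` : the groups are `{0,1}`, `{2,3}`, `{4,5}`;
the first and the last group are not joined. -/
def adjQ (i j : Fin 6) : Bool := decide (i ≠ j) && decide (i.1 / 2 ≤ j.1 / 2 + 1) &&
  decide (j.1 / 2 ≤ i.1 / 2 + 1)

/-- adjacency of the three kinds of further vertices to `Q`. -/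
def nb (t : Fin 3) (i : Fin 6) : Bool :=
  match t with
  | 0 => decide (i ≠ 5)
  | 1 => decide (i.1 ≤ 2)
  | 2 => decide (i ≠ 1)

/-- adjacency of `H`. -/
def adjH (m : ℕ) : Fin 6 ⊕ (Fin 3 × Fin m) → Fin 6 ⊕ (Fin 3 × Fin m) → Prop
  | Sum.inl i, Sum.inl j => adjQ i j = true
  | Sum.inl i, Sum.inr w => nb w.1 i = true
  | Sum.inr w, Sum.inl i => nb w.1 i = true
  | Sum.inr w, Sum.inr w' => w ≠ w'

lemma adjQ_symm : ∀ i j : Fin 6, adjQ i j = true → adjQ j i = true := by decide

lemma adjQ_irrefl : ∀ i : Fin 6, adjQ i i = false := by decide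

/-- The graph `H`. -/
def H (m : ℕ) : SimpleGraph (Fin 6 ⊕ (Fin 3 × Fin m)) where
  Adj := adjH m
  symm := ⟨by
    rintro (i | w) (j | w') h
    · exact adjQ_symm i j h
    · exact h
    · exact h
    · exact fun h' => h h'.symm⟩
  loopless := ⟨by
    rintro (i | w) h
    · have := adjQ_irrefl i
      simp only [adjH] at h
      rw [this] at h
      exact absurd h (by simp)
    · exact h rfl⟩


lemma comQQ : ∀ i j : Fin 6, i ≠ j → adjQ i j = false →
    ∃ k : Fin 6, adjQ i k = true ∧ adjQ k j = true := by decide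

lemma comQW : ∀ (i : Fin 6) (t : Fin 3), nb t i = false →
    ∃ k : Fin 6, adjQ i k = true ∧ nb t k = true := by decide

lemma H_adj_ll {m : ℕ} (i j : Fin 6) : (H m).Adj (Sum.inl i) (Sum.inl j) ↔ adjQ i j = true :=
  Iff.rfl
lemma H_adj_lr {m : ℕ} (i : Fin 6) (w : Fin 3 × Fin m) :
    (H m).Adj (Sum.inl i) (Sum.inr w) ↔ nb w.1 i = true := Iff.rfl
lemma H_adj_rl {m : ℕ} (i : Fin 6) (w : Fin 3 × Fin m) :
    (H m).Adj (Sum.inr w) (Sum.inl i) ↔ nb w.1 i = true := Iff.rfl
lemma H_adj_rr {m : ℕ} (w w' : Fin 3 × Fin m) :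
    (H m).Adj (Sum.inr w) (Sum.inr w') ↔ w ≠ w' := Iff.rfl

lemma H_common {m : ℕ} (a b : Fin 6 ⊕ (Fin 3 × Fin m)) (hab : a ≠ b) (h : ¬ (H m).Adj a b) :
    ∃ c, (H m).Adj a c ∧ (H m).Adj c b := by
  rcases a with i | w <;> rcases b with j | w'
  · rw [H_adj_ll, Bool.not_eq_true] at h
    obtain ⟨k, h1, h2⟩ := comQQ i j (fun e => hab (by rw [e])) h
    exact ⟨Sum.inl k, h1, h2⟩
  · rw [H_adj_lr, Bool.not_eq_true] at h
    obtain ⟨k, h1, h2⟩ := comQW i w'.1 h
    exact ⟨Sum.inl k, h1, h2⟩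
  · rw [H_adj_rl, Bool.not_eq_true] at h
    obtain ⟨k, h1, h2⟩ := comQW j w.1 h
    exact ⟨Sum.inl k, h2, adjQ_symm _ _ h1⟩
  · rw [H_adj_rr, not_not] at h
    exact absurd (by rw [h]) hab

lemma H_reach {m : ℕ} (a b : Fin 6 ⊕ (Fin 3 × Fin m)) :
    ∃ p : (H m).Walk a b, p.length ≤ 2 := by
  by_cases hab : a = b
  · subst hab
    exact ⟨Walk.nil, by simp⟩
  by_cases h : (H m).Adj a b
  · exact ⟨Walk.cons h Walk.nil, by simp⟩
  · obtain ⟨c, h1, h2⟩ := H_common a b hab h
    exact ⟨Walk.cons h1 (Walk.cons h2 Walk.nil), by simp⟩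

lemma H_conn (m : ℕ) : (H m).Connected := by
  have : Nonempty (Fin 6 ⊕ (Fin 3 × Fin m)) := ⟨Sum.inl 0⟩
  refine ⟨fun a b => ?_⟩
  obtain ⟨p, -⟩ := H_reach a b
  exact ⟨p⟩

lemma H_dist_le {m : ℕ} (a b : Fin 6 ⊕ (Fin 3 × Fin m)) : (H m).dist a b ≤ 2 := by
  obtain ⟨p, hp⟩ := H_reach a b
  exact (dist_le p).trans hp

lemma H_dist_adj {m : ℕ} {a b : Fin 6 ⊕ (Fin 3 × Fin m)} (h : (H m).Adj a b) :
    (H m).dist a b = 1 := dist_eq_one_iff_adj.2 h

lemma H_dist_nadj {m : ℕ} {a b : Fin 6 ⊕ (Fin 3 × Fin m)} (hab : a ≠ b)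
    (h : ¬ (H m).Adj a b) : (H m).dist a b = 2 := by
  have h1 := (H_conn m).one_lt_dist_of_ne_of_not_adj hab h
  have h2 := H_dist_le a b
  omega

/-- `(t, k)` and `(t, k')` are true twins -/
lemma H_twin {m : ℕ} (t : Fin 3) (k k' : Fin m) (b : Fin 6 ⊕ (Fin 3 × Fin m))
    (h1 : b ≠ Sum.inr (t, k)) (h2 : b ≠ Sum.inr (t, k')) :
    (H m).Adj b (Sum.inr (t, k)) ↔ (H m).Adj b (Sum.inr (t, k')) := by
  rcases b with i | w
  · rw [H_adj_lr, H_adj_lr]
  · rw [H_adj_rr, H_adj_rr]
    constructor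
    · intro _ h
      exact h2 (by rw [h])
    · intro _ h
      exact h1 (by rw [h])

lemma exists_max_card {V : Type} [Finite V] (P : Finset V → Prop) (h0 : P ∅) :
    ∃ S, Maximal P S := by
  classical
  obtain ⟨S, hS⟩ := (Set.toFinite {S : Finset V | P S}).exists_maximal ⟨∅, h0⟩
  exact ⟨S, hS⟩

lemma le_gpLower {V : Type} [Finite V] (G : SimpleGraph V) (m : ℕ)
    (h : ∀ S : Finset V, Maximal (IsGP G) S → m ≤ S.card) : m ≤ gpLower G := by
  have h0 : IsGP G ∅ := by
    intro x hx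
    simp at hx
  obtain ⟨S, hS⟩ := exists_max_card (IsGP G) h0
  have hne : {n | ∃ S : Finset V, Maximal (IsGP G) S ∧ S.card = n}.Nonempty :=
    ⟨S.card, S, hS, rfl⟩
  obtain ⟨T, hT, hTc⟩ := Nat.sInf_mem hne
  unfold gpLower
  rw [← hTc]
  exact h T hT

lemma gpLower_top (a : ℕ) : a ≤ gpLower (⊤ : SimpleGraph (Fin a)) := by
  apply le_gpLower
  intro S hS
  rcases Nat.eq_zero_or_pos a with h0 | h0
  · omega
  have : Nonempty (Fin a) := ⟨⟨0, h0⟩⟩
  have hc : (⊤ : SimpleGraph (Fin a)).Connected := connected_top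
  have hU : IsGP (⊤ : SimpleGraph (Fin a)) Finset.univ := by
    rw [gp_iff hc]
    intro x _ y _ z _ h1 h2 h3
    rw [dist_top_of_ne h1, dist_top_of_ne h2, dist_top_of_ne h3]
    omega
  have h1 : (Finset.univ : Finset (Fin a)) ⊆ S := hS.2 hU (Finset.subset_univ S)
  have h2 := Finset.card_le_card h1
  simpa using h2

lemma H_twin_mem {m : ℕ} {S : Finset (Fin 6 ⊕ (Fin 3 × Fin m))} (hS : Maximal (IsGP (H m)) S)
    {t : Fin 3} {k : Fin m} (hk : Sum.inr (t, k) ∈ S) (k' : Fin m) : Sum.inr (t, k') ∈ S := by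
  classical
  by_cases hkk : k' = k
  · rw [hkk]; exact hk
  have hne : (Sum.inr (t, k') : Fin 6 ⊕ (Fin 3 × Fin m)) ≠ Sum.inr (t, k) := by
    intro h
    apply hkk
    simpa using h
  have hcl := (gp_iff_cluster (H_conn m) H_dist_le S).1 hS.1
  set w : Fin 6 ⊕ (Fin 3 × Fin m) := Sum.inr (t, k) with hw
  set w' : Fin 6 ⊕ (Fin 3 × Fin m) := Sum.inr (t, k') with hw'
  have tw : ∀ b, b ≠ w → b ≠ w' → ((H m).Adj b w ↔ (H m).Adj b w') := fun b h1 h2 =>
    H_twin t k k' b h1 h2
  have hadj : (H m).Adj w w' := by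
    rw [hw, hw', H_adj_rr]
    intro h
    apply hkk
    have := congrArg Prod.snd h
    exact this.symm
  have hT : IsGP (H m) (insert w' S) := by
    rw [gp_iff_cluster (H_conn m) H_dist_le]
    -- reduce: every vertex of the new set is either in `S` or equal to `w'`
    have key : ∀ x ∈ S, ∀ y ∈ S, (H m).Adj x y → x ≠ w' → y ≠ w' → (H m).Adj y w' →
        (H m).Adj x w' := by
      intro x hx y hy hxy hx' hy' hyw
      by_cases hxw : x = w
      · rw [hxw]; exact hadj
      by_cases hyw2 : y = w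
      · rw [hyw2] at hxy
        exact (tw x hxw hx').1 hxy
      · have h3 : (H m).Adj y w := (tw y hyw2 hy').2 hyw
        exact (tw x hxw hx').1 (hcl x hx y hy w hk hxy h3 hxw)
    have key2 : ∀ x ∈ S, ∀ z ∈ S, x ≠ z → x ≠ w' → z ≠ w' → (H m).Adj x w' → (H m).Adj w' z →
        (H m).Adj x z := by
      intro x hx z hz hxz hx' hz' h1 h2
      by_cases hxw : x = w
      · rw [hxw]
        have hzw : z ≠ w := fun h => hxz (by rw [hxw, h])
        exact ((tw z hzw hz').2 h2.symm).symm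
      by_cases hzw : z = w
      · rw [hzw]
        exact (tw x hxw hx').2 h1
      · exact hcl x hx w hk z hz ((tw x hxw hx').2 h1) ((tw z hzw hz').2 h2.symm).symm hxz
    by_cases hmem : w' ∈ S
    · rw [Finset.insert_eq_of_mem hmem]
      exact hcl
    have hnS : ∀ x ∈ S, x ≠ w' := fun x hx h => hmem (h ▸ hx)
    intro x hx y hy z hz hxy hyz hxz
    rw [Finset.mem_insert] at hx hy hz
    rcases hx with rfl | hx
    · rcases hy with rfl | hy
      · exact absurd hxy ((H m).loopless.irrefl _)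
      · rcases hz with rfl | hz
        · exact absurd rfl hxz
        · exact (key z hz y hy hyz.symm (hnS z hz) (hnS y hy) hxy.symm).symm
    · rcases hy with rfl | hy
      · rcases hz with rfl | hz
        · exact absurd hyz ((H m).loopless.irrefl _)
        · exact key2 x hx z hz hxz (hnS x hx) (hnS z hz) hxy hyz
      · rcases hz with rfl | hz
        · exact key x hx y hy hxy (hnS x hx) (hnS y hy) hyz
        · exact hcl x hx y hy z hz hxy hyz hxz
  have := hS.2 hT (Finset.subset_insert w' S)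
  exact this (Finset.mem_insert_self w' S)

/-- the type of further vertices compatible with a clique union missing group `g` -/
def tOf (g : Fin 3) : Fin 3 :=
  match g with
  | 0 => 2
  | 1 => 1
  | 2 => 0

/-- If `x, y` are in `Q` outside group `g`, and `w` has type `tOf g`, then adjacency to `w`
is constant on adjacent pairs. -/
lemma chk1 : ∀ (g : Fin 3) (x y : Fin 6), x.1 / 2 ≠ g.1 → y.1 / 2 ≠ g.1 → adjQ x y = true →
    nb (tOf g) y = true → nb (tOf g) x = true := by decide

lemma chk2 : ∀ (g : Fin 3) (x y : Fin 6), x.1 / 2 ≠ g.1 → y.1 / 2 ≠ g.1 → x ≠ y →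
    nb (tOf g) x = true → nb (tOf g) y = true → adjQ x y = true := by decide

lemma chk3 : ∀ (x y z : Fin 6), x.1 / 2 = 0 → y.1 / 2 = 1 → z.1 / 2 = 2 →
    adjQ x y = true ∧ adjQ y z = true ∧ x ≠ z ∧ adjQ x z = false := by decide

lemma gpLower_H (m : ℕ) : m ≤ gpLower (H m) := by
  classical
  apply le_gpLower
  intro S hS
  rcases Nat.eq_zero_or_pos m with h0 | h0
  · omega
  by_cases hW : ∃ (t : Fin 3) (k : Fin m), Sum.inr (t, k) ∈ S
  · obtain ⟨t, k, hk⟩ := hW
    have h1 : (Finset.univ.image (fun k' : Fin m => (Sum.inr (t, k') : Fin 6 ⊕ (Fin 3 × Fin m))))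
        ⊆ S := by
      intro x hx
      rw [Finset.mem_image] at hx
      obtain ⟨k', -, rfl⟩ := hx
      exact H_twin_mem hS hk k'
    have h2 := Finset.card_le_card h1
    rw [Finset.card_image_of_injective _ (by
      intro a b hab
      simpa using hab)] at h2
    simpa using h2
  · exfalso
    push Not at hW
    have hcl := (gp_iff_cluster (H_conn m) H_dist_le S).1 hS.1
    -- some group is missed
    have hg : ∃ g : Fin 3, ∀ i : Fin 6, Sum.inl i ∈ S → i.1 / 2 ≠ g.1 := by
      by_contra hcon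
      push Not at hcon
      obtain ⟨x, hx, hx'⟩ := hcon 0
      obtain ⟨y, hy, hy'⟩ := hcon 1
      obtain ⟨z, hz, hz'⟩ := hcon 2
      obtain ⟨c1, c2, c3, c4⟩ := chk3 x y z hx' hy' hz'
      have := hcl _ hx _ hy _ hz ((H_adj_ll x y).2 c1) ((H_adj_ll y z).2 c2)
        (by simpa using c3)
      rw [H_adj_ll, c4] at this
      exact absurd this (by simp)
    obtain ⟨g, hg⟩ := hg
    set w : Fin 6 ⊕ (Fin 3 × Fin m) := Sum.inr (tOf g, ⟨0, h0⟩) with hw
    have hwS : w ∉ S := hW _ _
    have hT : IsGP (H m) (insert w S) := by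
      rw [gp_iff_cluster (H_conn m) H_dist_le]
      have key : ∀ x ∈ S, ∀ y ∈ S, (H m).Adj x y → (H m).Adj y w → (H m).Adj x w := by
        intro x hx y hy hxy hyw
        rcases x with i | v
        · rcases y with j | v'
          · exact chk1 g i j (hg i hx) (hg j hy) hxy hyw
          · exact absurd hy (hW _ _)
        · exact absurd hx (hW _ _)
      have key2 : ∀ x ∈ S, ∀ z ∈ S, x ≠ z → (H m).Adj x w → (H m).Adj w z →
          (H m).Adj x z := by
        intro x hx z hz hxz h1 h2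
        rcases x with i | v
        · rcases z with j | v'
          · exact chk2 g i j (hg i hx) (hg j hz) (by simpa using hxz) h1 h2
          · exact absurd hz (hW _ _)
        · exact absurd hx (hW _ _)
      intro x hx y hy z hz hxy hyz hxz
      rw [Finset.mem_insert] at hx hy hz
      rcases hx with rfl | hx
      · rcases hy with rfl | hy
        · exact absurd hxy ((H m).loopless.irrefl _)
        · rcases hz with rfl | hz
          · exact absurd rfl hxz
          · exact (key z hz y hy hyz.symm hxy.symm).symm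
      · rcases hy with rfl | hy
        · rcases hz with rfl | hz
          · exact absurd hyz ((H m).loopless.irrefl _)
          · exact key2 x hx z hz hxz hxy hyz
        · rcases hz with rfl | hz
          · exact key x hx y hy hxy hyz
          · exact hcl x hx y hy z hz hxy hyz hxz
    exact hwS (hS.2 hT (Finset.subset_insert w S) (Finset.mem_insert_self w S))

/-! ### the product -/

lemma dist_boxProd {V W : Type} {G : SimpleGraph V} {K : SimpleGraph W} (hG : G.Connected)
    (hK : K.Connected) (x y : V × W) :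
    (G □ K).dist x y = G.dist x.1 y.1 + K.dist x.2 y.2 := by
  have h1 := edist_boxProd (G := G) (H := K) x y
  have h2 := ((hG.boxProd hK) x y).coe_dist_eq_edist
  have h3 := (hG x.1 y.1).coe_dist_eq_edist
  have h4 := (hK x.2 y.2).coe_dist_eq_edist
  rw [← h2, ← h3, ← h4] at h1
  exact_mod_cast h1

/-- the six points -/
def pt (m : ℕ) (i : Fin 6) : Fin (m + 3) × (Fin 6 ⊕ (Fin 3 × Fin m)) :=
  (⟨i.1 / 2, by omega⟩, Sum.inl i)

/-- distance between the points -/
def dQ (i j : Fin 6) : ℕ :=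
  (if i.1 / 2 = j.1 / 2 then 0 else 1) + (if i = j then 0 else if adjQ i j then 1 else 2)

lemma chk4 : ∀ i j k : Fin 6, i ≠ j → j ≠ k → i ≠ k → dQ i k ≠ dQ i j + dQ j k := by decide

lemma dist_QQ {m : ℕ} (i j : Fin 6) :
    (H m).dist (Sum.inl i) (Sum.inl j) = if i = j then 0 else if adjQ i j then 1 else 2 := by
  by_cases h : i = j
  · subst h; simp
  · rw [if_neg h]
    by_cases h2 : adjQ i j = true
    · rw [if_pos h2]
      exact H_dist_adj ((H_adj_ll i j).2 h2)
    · rw [if_neg h2]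
      exact H_dist_nadj (by simpa using h) (fun h3 => h2 h3)

lemma dist_QW {m : ℕ} (i : Fin 6) (w : Fin 3 × Fin m) :
    (H m).dist (Sum.inr w) (Sum.inl i) = if nb w.1 i then 1 else 2 := by
  by_cases h2 : nb w.1 i = true
  · rw [if_pos h2]
    exact H_dist_adj ((H_adj_rl i w).2 h2)
  · rw [if_neg h2]
    exact H_dist_nadj (by simp) (fun h3 => h2 h3)

/-- every vertex of `H` is closer to one of the two vertices of some group -/
lemma split {m : ℕ} (h : Fin 6 ⊕ (Fin 3 × Fin m)) :
    ∃ i j : Fin 6, i.1 / 2 = j.1 / 2 ∧ i ≠ j ∧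
      (H m).dist h (Sum.inl j) = (H m).dist h (Sum.inl i) + 1 := by
  rcases h with q | w
  · have h1 : ∀ q : Fin 6, ∃ j : Fin 6, q.1 / 2 = j.1 / 2 ∧ q ≠ j ∧
        (if q = j then 0 else if adjQ q j then 1 else 2) = 1 := by decide
    obtain ⟨j, h2, h3, h4⟩ := h1 q
    refine ⟨q, j, h2, h3, ?_⟩
    rw [dist_QQ, dist_QQ, h4, if_pos rfl]
  · have h1 : ∀ t : Fin 3, ∃ i j : Fin 6, i.1 / 2 = j.1 / 2 ∧ i ≠ j ∧
        (if nb t j then 1 else 2) = (if nb t i then 1 else 2) + 1 := by decide
    obtain ⟨i, j, h2, h3, h4⟩ := h1 w.1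
    refine ⟨i, j, h2, h3, ?_⟩
    rw [dist_QW, dist_QW]
    exact h4

lemma dist_pt {m : ℕ} (i j : Fin 6) :
    ((⊤ : SimpleGraph (Fin (m + 3))) □ H m).dist (pt m i) (pt m j) = dQ i j := by
  rw [dist_boxProd connected_top (H_conn m)]
  unfold pt dQ
  simp only
  rw [dist_QQ, dist_top]
  congr 1
  simp only [Fin.mk.injEq]

lemma gpLower_box (m : ℕ) : gpLower ((⊤ : SimpleGraph (Fin (m + 3))) □ H m) ≤ 6 := by
  classical
  have hc : ((⊤ : SimpleGraph (Fin (m + 3))) □ H m).Connected :=
    connected_top.boxProd (H_conn m)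
  set S : Finset (Fin (m + 3) × (Fin 6 ⊕ (Fin 3 × Fin m))) := Finset.univ.image (pt m) with hS
  have hcard : S.card ≤ 6 := by
    have := Finset.card_image_le (s := (Finset.univ : Finset (Fin 6))) (f := pt m)
    simpa using this
  have hmax : Maximal (IsGP ((⊤ : SimpleGraph (Fin (m + 3))) □ H m)) S := by
    constructor
    · rw [gp_iff hc]
      intro x hx y hy z hz h1 h2 h3
      rw [hS, Finset.mem_image] at hx hy hz
      obtain ⟨i, -, rfl⟩ := hx
      obtain ⟨j, -, rfl⟩ := hy
      obtain ⟨k, -, rfl⟩ := hz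
      rw [dist_pt, dist_pt, dist_pt]
      exact chk4 i j k (fun h => h1 (by rw [h])) (fun h => h2 (by rw [h]))
        (fun h => h3 (by rw [h]))
    · intro T hT hST x hx
      by_contra hxS
      rw [gp_iff hc] at hT
      obtain ⟨i, j, hij, hne, hd⟩ := split x.2
      have hi : pt m i ∈ S := Finset.mem_image_of_mem _ (Finset.mem_univ i)
      have hj : pt m j ∈ S := Finset.mem_image_of_mem _ (Finset.mem_univ j)
      apply hT x hx (pt m i) (hST hi) (pt m j) (hST hj)
      · intro h; exact hxS (h ▸ hi)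
      · intro h
        apply hne
        have := congrArg Prod.snd h
        simpa [pt] using this
      · intro h; exact hxS (h ▸ hj)
      · rw [dist_boxProd connected_top (H_conn m), dist_boxProd connected_top (H_conn m)]
        have e1 : (pt m i).1 = (pt m j).1 := by
          unfold pt
          simp only [Fin.mk.injEq]
          exact hij
        have e2 : (pt m i).2 = Sum.inl i := rfl
        have e3 : (pt m j).2 = Sum.inl j := rfl
        rw [dist_pt, e1, e2, e3, hd]
        have e4 : dQ i j = 1 := by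
          have : ∀ i j : Fin 6, i.1 / 2 = j.1 / 2 → i ≠ j → dQ i j = 1 := by decide
          exact this i j hij hne
        omega
  have hle : gpLower ((⊤ : SimpleGraph (Fin (m + 3))) □ H m) ≤ S.card := by
    apply Nat.sInf_le
    exact ⟨S, hmax, rfl⟩
  exact hle.trans hcard

/-- MP_f79b2b_co, Q1 is false, in a strong form: there are finite connected graphs `G`, `K` with
`gp⁻(G)`, `gp⁻(K)` arbitrarily large and `gp⁻(G □ K) ≤ 6`. -/
theorem result :
    (∀ m : ℕ, ∃ (V W : Type) (_ : Fintype V) (_ : Fintype W) (G : SimpleGraph V)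
      (K : SimpleGraph W), G.Connected ∧ K.Connected ∧ m ≤ gpLower G ∧ m ≤ gpLower K ∧
        gpLower (G □ K) ≤ 6) ∧
    ¬ (∀ (V W : Type) (_ : Fintype V) (_ : Fintype W) (G : SimpleGraph V) (K : SimpleGraph W),
      min (gpLower G) (gpLower K) ≤ gpLower (G □ K)) := by
  have h : ∀ m : ℕ, ∃ (V W : Type) (_ : Fintype V) (_ : Fintype W) (G : SimpleGraph V)
      (K : SimpleGraph W), G.Connected ∧ K.Connected ∧ m ≤ gpLower G ∧ m ≤ gpLower K ∧
        gpLower (G □ K) ≤ 6 := by
    intro m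
    refine ⟨Fin (m + 3), Fin 6 ⊕ (Fin 3 × Fin m), inferInstance, inferInstance, ⊤, H m,
      connected_top, H_conn m, ?_, gpLower_H m, gpLower_box m⟩
    have := gpLower_top (m + 3)
    omega
  refine ⟨h, fun hcon => ?_⟩
  obtain ⟨V, W, iV, iW, G, K, -, -, h1, h2, h3⟩ := h 7
  have h4 := hcon V W iV iW G K
  have h5 : 7 ≤ min (gpLower G) (gpLower K) := le_min h1 h2
  omega

end Pool.Agent.Results.MP_f79b2b_co.ProductFails
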